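import Mathlib
import Pool.Agent.H94R2.MagicPf

set_option autoImplicit false

namespace Pool.Agent.Results.MP_3b70de_al.NoEmbedding

open Pool.Agent.H94R2.Iso

/-- The generator `J` of the solution group. -/
def genJ (n : ℕ) : FreeGroup (Option (Fin n)) := FreeGroup.of none

/-- The generators `g_1, ..., g_n` of the solution group. -/
def gen {n : ℕ} (i : Fin n) : FreeGroup (Option (Fin n)) := FreeGroup.of (some i)

/-- The relators of the solution group of the binary linear system `M x = b`:
`J^2`, `g_i^2`, `[J, g_i]`, `[g_i, g_j]` whenever `g_i` and `g_j` occur in a common equation, and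
`(∏_i g_i^(M k i)) J^(-b k)` for every equation `k`, the product being taken in increasing order of
`i`. -/
def solRels {m n : ℕ} (M : Matrix (Fin m) (Fin n) (ZMod 2)) (b : Fin m → ZMod 2) :
    Set (FreeGroup (Option (Fin n))) :=
  {r | r = genJ n * genJ n} ∪
  {r | ∃ i, r = gen i * gen i} ∪
  {r | ∃ i, r = genJ n * gen i * (genJ n)⁻¹ * (gen i)⁻¹} ∪
  {r | ∃ i j, (∃ k, M k i = 1 ∧ M k j = 1) ∧ r = gen i * gen j * (gen i)⁻¹ * (gen j)⁻¹} ∪
  {r | ∃ k, r = (List.ofFn fun i => gen i ^ (M k i).val).prod * (genJ n ^ (b k).val)⁻¹}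

/-- The solution group `Γ(M, b)` of a binary linear system. -/
abbrev SolutionGroup {m n : ℕ} (M : Matrix (Fin m) (Fin n) (ZMod 2)) (b : Fin m → ZMod 2) : Type :=
  PresentedGroup (solRels M b)

/-- A unital *-homomorphism from the isomorphism game algebra of two graphs to the full group
C*-algebra of any group gives a one-dimensional representation of the isomorphism game. -/
theorem character_of_hom {V W : Type} [Fintype V] [Fintype W] {G : SimpleGraph V}
    {H : SimpleGraph W} {A : Type} [CStarAlgebra A] {p : V → W → A} (hp : IsoGameRel G H p)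
    {Γ : Type} [Group Γ] {C : Type} [CStarAlgebra C] {u : Γ →* C} (hC : IsFullGroupCStar Γ C u)
    (φ : A →⋆ₐ[ℂ] C) : ∃ q : V → W → ℂ, IsoGameRel G H q := by
  obtain ⟨χ, -, -⟩ := hC.univ ℂ (1 : Γ →* ℂ) (fun g => one_mem _)
  exact ⟨_, hp.map (χ.comp φ)⟩

/-- **Negative answer to Q1.**  There are finite graphs `G`, `H` whose isomorphism game algebra
`A(G, H)` is non-zero, such that for no binary linear system `M x = b` is there a unital injective
*-homomorphism (in fact, not even a unital *-homomorphism) from `A(G, H)` to the full group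
C*-algebra `C*(Γ(M, b))` of the solution group.  The algebras `A(G, H)` and `C*(Γ(M, b))` are
described by their universal properties; that they exist is part of the statement. -/
theorem result :
    ∃ (V W : Type) (_ : Fintype V) (_ : Fintype W) (G : SimpleGraph V) (H : SimpleGraph W),
      (∃ (A : Type) (_ : CStarAlgebra A) (p : V → W → A), IsIsoGameAlgebra G H A p) ∧
      ∀ (A : Type) [CStarAlgebra A] (p : V → W → A), IsIsoGameAlgebra G H A p →
        Nontrivial A ∧
        ∀ (m n : ℕ) (M : Matrix (Fin m) (Fin n) (ZMod 2)) (b : Fin m → ZMod 2),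
          (∃ (C : Type) (_ : CStarAlgebra C) (u : SolutionGroup M b →* C),
            IsFullGroupCStar (SolutionGroup M b) C u) ∧
          ∀ (C : Type) [CStarAlgebra C] (u : SolutionGroup M b →* C),
            IsFullGroupCStar (SolutionGroup M b) C u →
              (¬ ∃ φ : A →⋆ₐ[ℂ] C, Function.Injective φ) ∧ IsEmpty (A →⋆ₐ[ℂ] C) := by
  refine ⟨MV, MV, inferInstance, inferInstance, MG bm, MG b0, exists_isoGameAlgebra _ _,
    fun A _ p hA => ⟨?_, fun m n M b => ⟨exists_fullGroupCStar _, fun C _ u hC => ?_⟩⟩⟩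
  · obtain ⟨B, instB, hB, q, hq⟩ := exists_quantum
    obtain ⟨φ, -, -⟩ := hA.univ B q hq
    by_contra hne
    rw [not_nontrivial_iff_subsingleton] at hne
    have h1 : φ 1 = φ 0 := congrArg φ (Subsingleton.elim _ _)
    rw [map_one, map_zero] at h1
    exact one_ne_zero h1
  · have key : IsEmpty (A →⋆ₐ[ℂ] C) :=
      ⟨fun φ => no_character (character_of_hom hA.rel hC φ)⟩
    exact ⟨fun ⟨φ, _⟩ => key.false φ, key⟩

end Pool.Agent.Results.MP_3b70de_al.NoEmbedding
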